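import Pool.Agent.U307.RAD.Main3
import Pool.Agent.U307.RAD.Ext3
import Pool.Agent.U307.RAD.UpK

/-!
# Powers of the Beurling transform: all angular types except the extremal one

A function `f` has angular type `m` if `f (r e^{iθ}) = e^{i m θ} φ(r)`. The near extremal functions for
`T ^ n` on `L ^ p`, `p > 2`, are of type `2 n`. Here the inequality of the question is proved for all
`n ≥ 1`, all real `p ≥ 2` and all Schwartz functions of any type `m ≠ 2 n`; on them the norm of `T ^ n`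
is even at most `(6.5 n) ^ (1 - 2/p)`, without the factor `p - 1`, and for `m ≤ n` (in particular for
radial functions) it is at most `(4 n ^ (3/4)) ^ (1 - 2/p)`. The same is true for sums of at most
`(p - 1) / 6.5 ^ (1 - 2/p)` such functions of different types. Together with the theorems of helper282
(`n = 2`) and helper588 (`p ≥ exp (32 n²)`) on the type `2 n`, the inequality holds on every angular type
if `n = 2` or `p ≥ exp (32 n²)`.

Proof. (1) For `l ≥ 0` let `A f` be the component of type `-l - 2 n` of `T ^ n f`; it is `T ^ n f` for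
`f` of type `-l`. An identity of Bessel functions gives
`A f (z) = (conj z / z) ^ n (g z - ∫_0^1 q(r) g(r z) dr)`, `g` the component of `f` of type `-l`,
where `q (r) / (2 r)` is the reproducing kernel at `1` of the span of `r ^ (l + 2 i)`, `i < n`, in
`L²(2 r dr)`. Weighted `L²` norms of `q` are computed in closed form; they give `1 + ∫ |q| ≤ 4 n ^ (3/4)`
uniformly in `l`. (2) For `l ≥ 1` also `1 + ∫ |q| / r² ≤ 6.5 n`: in the variable `y = - 2 log r`,
`(1 - r²) q / r` is a multiple of a difference of two functions whose Fourier transform is a Blaschke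
product over `l / 2 + i τ`; the theorem of Plancherel and the inequality of Carlson bound their `L¹` norm.
(3) `A` has norm at most `1` on `L²`, at most `1 + ∫ |q| r ^ (-2/P)` on `L ^ P`, and the theorem of
Riesz and Thorin with `P → ∞`, and with `P → 1` and duality (for the type `2 n + l`), gives the
bounds. (4) On functions of type `0 ≤ m ≤ n` one has `T ^ n f = T ^ (n - m) (f ∘ conj)`, on type
`m ≥ n` one has `T ^ n f = conj (T ^ (m - n) (conj ∘ f ∘ conj))`.
-/

set_option autoImplicit false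

open MeasureTheory

namespace Pool.Agent.Results.MP_3dd6d4_an.AllTypesButOne

/-- The `n`-th power of the Beurling transform of a Schwartz function: the Fourier multiplier with
symbol `(conj ξ / ξ) ^ n`, in the literal form of the frozen statement. -/
noncomputable def T (n : ℕ) (f : SchwartzMap ℂ ℂ) (z : ℂ) : ℂ :=
  ∫ ξ : ℂ,
    Complex.exp (2 * (Real.pi : ℂ) * Complex.I * ((z.re * ξ.re + z.im * ξ.im : ℝ) : ℂ)) *
      ((starRingEnd ℂ ξ / ξ) ^ n *
        ∫ w : ℂ, Complex.exp (-(2 * (Real.pi : ℂ) * Complex.I *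
          ((w.re * ξ.re + w.im * ξ.im : ℝ) : ℂ))) * f w)

/-- `f` has angular type `m`: `f (r e^{iθ}) = e^{i m θ} φ(r)`. -/
def HasType (m : ℤ) (f : SchwartzMap ℂ ℂ) : Prop := ∀ a z : ℂ, ‖a‖ = 1 → f (a * z) = a ^ m * f z

/-- The inequality `‖T ^ n f‖_p ≤ C ‖f‖_p`. -/
def Bound (n : ℕ) (p C : ℝ) (f : SchwartzMap ℂ ℂ) : Prop :=
  eLpNorm (T n f) (ENNReal.ofReal p) volume ≤
    ENNReal.ofReal C * eLpNorm (fun z : ℂ => f z) (ENNReal.ofReal p) volume

/-- Let `n ≥ 1` and let `p ≥ 2` be real.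
(1) If `m ≠ 2 n` and `f` is of type `m`, then `‖T ^ n f‖_p ≤ (6.5 n) ^ (1 - 2/p) ‖f‖_p`, and this is at
most `n ^ (1 - 2/p) (p - 1) ‖f‖_p`.
(2) If `m ≤ n` and `f` is of type `m`, then `‖T ^ n f‖_p ≤ (4 n ^ (3/4)) ^ (1 - 2/p) ‖f‖_p`.
(3) The inequality `‖T ^ n f‖_p ≤ n ^ (1 - 2/p) (p - 1) ‖f‖_p` of the question holds for
`f = Σ_{m ∈ s} f_m` with `f_m` of type `m`, if `s` is a finite set of integers, `2 n ∉ s`, and
`|s| 6.5 ^ (1 - 2/p) ≤ p - 1`.
(4) It holds for all `f` of any type `m` if `n = 2` or `p ≥ exp (32 n²)`. -/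
theorem result (n : ℕ) (p : ℝ) (hn : 1 ≤ n) (hp : 2 ≤ p) :
    (∀ (m : ℤ) (f : SchwartzMap ℂ ℂ), m ≠ 2 * n → HasType m f →
      Bound n p ((13 / 2 * (n : ℝ)) ^ (1 - 2 / p)) f ∧
      Bound n p ((n : ℝ) ^ (1 - 2 / p) * (p - 1)) f) ∧
    (∀ (m : ℤ) (f : SchwartzMap ℂ ℂ), m ≤ n → HasType m f →
      Bound n p ((4 * (n : ℝ) ^ (3 / 4 : ℝ)) ^ (1 - 2 / p)) f) ∧
    (∀ (s : Finset ℤ) (f : ℤ → SchwartzMap ℂ ℂ), (2 * n : ℤ) ∉ s → (∀ m ∈ s, HasType m (f m)) →
      s.card * (13 / 2 : ℝ) ^ (1 - 2 / p) ≤ p - 1 →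
      Bound n p ((n : ℝ) ^ (1 - 2 / p) * (p - 1)) (∑ m ∈ s, f m)) ∧
    (n = 2 ∨ Real.exp (32 * (n : ℝ) ^ 2) ≤ p → ∀ (m : ℤ) (f : SchwartzMap ℂ ℂ), HasType m f →
      Bound n p ((n : ℝ) ^ (1 - 2 / p) * (p - 1)) f) := by
  have h1 : ∀ (m : ℤ) (f : SchwartzMap ℂ ℂ), m ≠ 2 * n → HasType m f →
      Bound n p ((13 / 2 * (n : ℝ)) ^ (1 - 2 / p)) f ∧
      Bound n p ((n : ℝ) ^ (1 - 2 / p) * (p - 1)) f := by
    intro m f hm hf
    have key := Pool.Agent.U307.RAD.all3 n m p hn hp hm f hf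
    refine ⟨key, key.trans ?_⟩
    have := (Pool.Agent.U307.RAD.num2 n p hn hp).1
    gcongr
  refine ⟨h1, fun m f hm hf => Pool.Agent.U307.RAD.low n m p hn hm hp f hf, ?_, ?_⟩
  · intro s f hs hf hc
    have hs' : ∀ m ∈ s, m ≠ 2 * n := fun m hm h => hs (h ▸ hm)
    refine (Pool.Agent.U307.RAD.sums3 n p hn hp s hs' f hf).trans ?_
    have h2 : (s.card : ℝ) * (13 / 2 * (n : ℝ)) ^ (1 - 2 / p) ≤ (n : ℝ) ^ (1 - 2 / p) * (p - 1) := by
      rw [Real.mul_rpow (by norm_num) (by positivity)]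
      calc (s.card : ℝ) * ((13 / 2 : ℝ) ^ (1 - 2 / p) * (n : ℝ) ^ (1 - 2 / p))
          = (n : ℝ) ^ (1 - 2 / p) * (s.card * (13 / 2 : ℝ) ^ (1 - 2 / p)) := by ring
        _ ≤ (n : ℝ) ^ (1 - 2 / p) * (p - 1) := by gcongr
    gcongr
  · intro hnp m f hf
    by_cases hm : m = 2 * n
    · have hf' : ∀ a z : ℂ, ‖a‖ = 1 → f (a * z) = a ^ (2 * n) * f z := by
        intro a z ha
        rw [hf a z ha, hm]
        norm_cast
      refine (Pool.Agent.U307.RAD.Ext3.ext n hn p ?_ f hf').trans ?_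
      · rcases hnp with h | h
        · exact Or.inl ⟨h, hp⟩
        · exact Or.inr h
      · have h3 : Pool.Agent.U307.RAD.Ext3.K n p ≤ (n : ℝ) ^ (1 - 2 / p) * (p - 1) :=
          Pool.Agent.U307.RAD.UpK.up n hn p hp
        gcongr
    · exact (h1 m f hm hf).2

end Pool.Agent.Results.MP_3dd6d4_an.AllTypesButOne
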