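import Pool.Agent.U588.RB.EB
import Pool.Agent.Y282.RB.Fin
import Pool.Agent.Y282.RB.K

/-!
# The inequality of the question on functions of angular type `2 n`

The question asks for `‖T^n f‖_p ≤ n ^ (1 - 2/p) (p - 1) ‖f‖_p`. The functions that come close to
equality are of the form `f (r e^{iθ}) = e^{2 n i θ} φ(r)`. For these functions the inequality is proved
here for every `n ≥ 1` and every real `p ≥ exp (32 n²)`, and for `n = 2` and every real `p ≥ 2`. The norm of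
`T ^ n` on these functions is computed exactly; it is `K = (1/q)_n / (1/p)_n`, and
`(1 - 2 (n - 1) / p) n ^ (1 - 2/p) (p - 1) ≤ K ≤ n ^ (1 - 2/p) (p - 1)`. So the constant of the question is
optimal up to a factor which tends to `1` as `p` tends to infinity.

The norm was computed in `MP_dd244f_an.AngularSharpAllPowers` (helper588; for `n = 2` in the
starting file `MP_dd244f_an.AngularSharpBounds`). The upper bound of `K` is
`(j + 1 - t) / (j + t) ≤ ((j + 1) / j) ^ (1 - 2 t)`, `t = 1/p`, which is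
`artanh ((1 - 2 t) y) ≤ (1 - 2 t) artanh y` for `y = 1 / (2 j + 1)`.
-/

set_option autoImplicit false

open MeasureTheory

namespace Pool.Agent.Results.MP_3dd6d4_an.AngularTypes

/-- The `n`-th power of the Beurling transform: the Fourier multiplier with symbol
`(conj ξ / ξ) ^ n`, in the literal form of the frozen statement. -/
noncomputable def T (n : ℕ) (f : ℂ → ℂ) (z : ℂ) : ℂ :=
  ∫ ξ : ℂ,
    Complex.exp (2 * (Real.pi : ℂ) * Complex.I * (((z.re * ξ.re + z.im * ξ.im : ℝ)) : ℂ)) *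
      ((starRingEnd ℂ ξ / ξ) ^ n *
        ∫ x : ℂ, Complex.exp (-(2 * (Real.pi : ℂ) * Complex.I *
          (((x.re * ξ.re + x.im * ξ.im : ℝ)) : ℂ))) * f x)

/-- `K = (1/q)_n / (1/p)_n`, where `1/q = 1 - 1/p` -/
noncomputable def K (n : ℕ) (p : ℝ) : ℝ :=
  (ascPochhammer ℝ n).eval (1 - 1 / p) / (ascPochhammer ℝ n).eval (1 / p)

/-- `f (r e^{iθ}) = e^{2 n i θ} φ(r)` -/
def AngularType (n : ℕ) (f : SchwartzMap ℂ ℂ) : Prop :=
  ∀ a z : ℂ, ‖a‖ = 1 → f (a * z) = a ^ (2 * n) * f z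

/-- `artanh x ≤ c artanh y` for `x = c y`, `0 ≤ c ≤ 1`, `0 ≤ y < 1` -/
theorem artanh_le {c y : ℝ} (hc0 : 0 ≤ c) (hc1 : c ≤ 1) (hy0 : 0 ≤ y) (hy1 : y < 1) :
    Real.log (1 + c * y) - Real.log (1 - c * y) ≤ c * (Real.log (1 + y) - Real.log (1 - y)) := by
  have hx0 : 0 ≤ c * y := mul_nonneg hc0 hy0
  have hxy : c * y ≤ y := by nlinarith
  have h1 := Real.hasSum_log_sub_log_of_abs_lt_one (x := c * y)
    (by rw [abs_of_nonneg hx0]; linarith)
  have h2 := (Real.hasSum_log_sub_log_of_abs_lt_one (x := y)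
    (by rw [abs_of_nonneg hy0]; linarith)).mul_left c
  refine hasSum_le (fun k => ?_) h1 h2
  have h3 : (c * y) ^ (2 * k) ≤ y ^ (2 * k) := pow_le_pow_left₀ hx0 hxy _
  have h4 : (c * y) ^ (2 * k + 1) ≤ c * y ^ (2 * k + 1) := by
    rw [pow_succ, pow_succ]
    calc (c * y) ^ (2 * k) * (c * y) ≤ y ^ (2 * k) * (c * y) :=
          mul_le_mul_of_nonneg_right h3 hx0
      _ = c * (y ^ (2 * k) * y) := by ring
  have h5 : (0 : ℝ) ≤ 2 * (1 / (2 * (k : ℝ) + 1)) := by positivity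
  calc 2 * (1 / (2 * (k : ℝ) + 1)) * (c * y) ^ (2 * k + 1)
      ≤ 2 * (1 / (2 * (k : ℝ) + 1)) * (c * y ^ (2 * k + 1)) := mul_le_mul_of_nonneg_left h4 h5
    _ = c * (2 * (1 / (2 * (k : ℝ) + 1)) * y ^ (2 * k + 1)) := by ring

/-- `(j + 1 - t) / (j + t) ≤ ((j + 1) / j) ^ (1 - 2 t)` -/
theorem factor_le {j t : ℝ} (hj : 0 < j) (ht0 : 0 ≤ t) (ht1 : t ≤ 1 / 2) :
    (j + 1 - t) / (j + t) ≤ ((j + 1) / j) ^ (1 - 2 * t) := by
  have hy1 : 1 / (2 * j + 1) < 1 := by
    rw [div_lt_one (by linarith)]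
    linarith
  have h := artanh_le (c := 1 - 2 * t) (y := 1 / (2 * j + 1)) (by linarith) (by linarith)
    (by positivity) hy1
  have hd : (2 * j + 1) ≠ 0 := by positivity
  have e1 : 1 + (1 - 2 * t) * (1 / (2 * j + 1)) = 2 * (j + 1 - t) / (2 * j + 1) := by
    field_simp
    ring
  have e2 : 1 - (1 - 2 * t) * (1 / (2 * j + 1)) = 2 * (j + t) / (2 * j + 1) := by
    field_simp
    ring
  have e3 : 1 + 1 / (2 * j + 1) = 2 * (j + 1) / (2 * j + 1) := by
    field_simp
    ring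
  have e4 : 1 - 1 / (2 * j + 1) = 2 * j / (2 * j + 1) := by
    field_simp
    ring
  rw [e1, e2, e3, e4] at h
  have p1 : 0 < j + 1 - t := by linarith
  have p2 : 0 < j + t := by linarith
  have p3 : 0 < j + 1 := by linarith
  have p5 : 0 < 2 * j + 1 := by linarith
  rw [← Real.log_div (by positivity) (by positivity),
    ← Real.log_div (by positivity) (by positivity)] at h
  have e5 : 2 * (j + 1 - t) / (2 * j + 1) / (2 * (j + t) / (2 * j + 1)) =
      (j + 1 - t) / (j + t) := by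
    field_simp
  have e6 : 2 * (j + 1) / (2 * j + 1) / (2 * j / (2 * j + 1)) = (j + 1) / j := by
    field_simp
  rw [e5, e6] at h
  rw [← Real.log_le_log_iff (by positivity) (by positivity), Real.log_rpow (by positivity)]
  exact h

/-- the upper bound of `K` -/
theorem upper {n : ℕ} (hn : 1 ≤ n) {p : ℝ} (hp : 2 ≤ p) :
    Pool.Agent.Y282.RB.Cn p n ≤ (n : ℝ) ^ (1 - 2 / p) * (p - 1) := by
  have ht0 : (0 : ℝ) < 1 / p := by positivity
  have ht1 : 1 / p ≤ 1 / 2 := one_div_le_one_div_of_le (by norm_num) hp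
  have hp0 : p ≠ 0 := by linarith
  induction n, hn using Nat.le_induction with
  | base =>
    unfold Pool.Agent.Y282.RB.Cn
    rw [Finset.prod_range_one, Nat.cast_one, Real.one_rpow, one_mul, Nat.cast_zero, zero_add,
      zero_add]
    apply le_of_eq
    field_simp
  | succ n hn ih =>
    have hn0 : (0 : ℝ) < n := by exact_mod_cast hn
    have h1 := factor_le (j := n) (t := 1 / p) hn0 ht0.le ht1
    have h2 : Pool.Agent.Y282.RB.Cn p (n + 1) =
        Pool.Agent.Y282.RB.Cn p n * (((n : ℝ) + 1 - 1 / p) / ((n : ℝ) + 1 / p)) := by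
      unfold Pool.Agent.Y282.RB.Cn
      rw [Finset.prod_range_succ]
    have h3 : 0 ≤ ((n : ℝ) + 1 - 1 / p) / ((n : ℝ) + 1 / p) := by
      apply div_nonneg <;> linarith
    have h4 : (0 : ℝ) ≤ (n : ℝ) ^ (1 - 2 / p) * (p - 1) := by
      apply mul_nonneg (by positivity)
      linarith
    have e : 1 - 2 * (1 / p) = 1 - 2 / p := by ring
    rw [e] at h1
    rw [h2]
    calc Pool.Agent.Y282.RB.Cn p n * (((n : ℝ) + 1 - 1 / p) / ((n : ℝ) + 1 / p))
        ≤ ((n : ℝ) ^ (1 - 2 / p) * (p - 1)) * (((n : ℝ) + 1 - 1 / p) / ((n : ℝ) + 1 / p)) :=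
          mul_le_mul_of_nonneg_right ih h3
      _ ≤ ((n : ℝ) ^ (1 - 2 / p) * (p - 1)) * (((n : ℝ) + 1) / n) ^ (1 - 2 / p) :=
          mul_le_mul_of_nonneg_left h1 h4
      _ = ((n + 1 : ℕ) : ℝ) ^ (1 - 2 / p) * (p - 1) := by
          rw [Real.div_rpow (by linarith) hn0.le]
          push_cast
          have : (n : ℝ) ^ (1 - 2 / p) ≠ 0 := by positivity
          field_simp

/-- the lower bound of `K` -/
theorem lower {n : ℕ} (hn : 1 ≤ n) {p : ℝ} (hp : 2 ≤ p) :
    (1 - 2 / p) ^ (n - 1) * (n * (p - 1)) ≤ Pool.Agent.Y282.RB.Cn p n := by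
  have hp0 : 0 < p := by linarith
  have ht0 : (0 : ℝ) < 1 / p := by positivity
  have ht1 : 1 / p ≤ 1 / 2 := one_div_le_one_div_of_le (by norm_num) hp
  have ht2 : 0 ≤ 1 - 2 / p := by
    have : 2 / p = 2 * (1 / p) := by ring
    rw [this]
    linarith
  induction n, hn using Nat.le_induction with
  | base =>
    unfold Pool.Agent.Y282.RB.Cn
    rw [Finset.prod_range_one, Nat.sub_self, pow_zero, one_mul, Nat.cast_one, one_mul,
      Nat.cast_zero, zero_add, zero_add]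
    apply le_of_eq
    field_simp
  | succ n hn ih =>
    have hn1 : (1 : ℝ) ≤ n := by exact_mod_cast hn
    have h2 : Pool.Agent.Y282.RB.Cn p (n + 1) =
        Pool.Agent.Y282.RB.Cn p n * (((n : ℝ) + 1 - 1 / p) / ((n : ℝ) + 1 / p)) := by
      unfold Pool.Agent.Y282.RB.Cn
      rw [Finset.prod_range_succ]
    have h3 : (1 - 2 / p) * (((n : ℝ) + 1) / n) ≤ ((n : ℝ) + 1 - 1 / p) / ((n : ℝ) + 1 / p) := by
      have e : 2 / p = 2 * (1 / p) := by ring
      rw [e]
      set t := 1 / p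
      rw [le_div_iff₀ (by linarith), ← mul_div_assoc, div_mul_eq_mul_div, div_le_iff₀ (by linarith)]
      have h4 : 0 ≤ t * (2 * (n : ℝ) ^ 2 + 2 * n * t - 1 + 2 * t) := by
        apply mul_nonneg ht0.le
        nlinarith
      nlinarith
    have h5 : 0 ≤ (1 - 2 / p) ^ (n - 1) * (n * (p - 1)) := by
      apply mul_nonneg (pow_nonneg ht2 _)
      apply mul_nonneg <;> linarith
    have h6 : 0 ≤ ((n : ℝ) + 1 - 1 / p) / ((n : ℝ) + 1 / p) := by
      apply div_nonneg <;> linarith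
    rw [h2]
    calc (1 - 2 / p) ^ (n + 1 - 1) * (((n + 1 : ℕ) : ℝ) * (p - 1))
        = (1 - 2 / p) ^ (n - 1) * (n * (p - 1)) * ((1 - 2 / p) * (((n : ℝ) + 1) / n)) := by
          obtain ⟨k, rfl⟩ : ∃ k, n = k + 1 := ⟨n - 1, by omega⟩
          rw [Nat.add_sub_cancel, Nat.add_sub_cancel, pow_succ]
          push_cast
          have : (k : ℝ) + 1 ≠ 0 := by positivity
          field_simp
      _ ≤ (1 - 2 / p) ^ (n - 1) * (n * (p - 1)) *
          (((n : ℝ) + 1 - 1 / p) / ((n : ℝ) + 1 / p)) := mul_le_mul_of_nonneg_left h3 h5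
      _ ≤ Pool.Agent.Y282.RB.Cn p n * (((n : ℝ) + 1 - 1 / p) / ((n : ℝ) + 1 / p)) :=
          mul_le_mul_of_nonneg_right ih h6

/-- Let `n ≥ 1` and `p ≥ exp (32 n²)`, or `n = 2` and `p ≥ 2`. (1) The inequality of the question holds
for all Schwartz functions of angular type `2 n`. (2) It holds for them with the constant
`K ≤ n ^ (1 - 2/p) (p - 1)`, and with no smaller constant, even for compactly supported functions.
(3) `(1 - 2 (n - 1) / p) n ^ (1 - 2/p) (p - 1) ≤ K`, so the constant of the question cannot be replaced by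
one that is smaller than the left side. -/
theorem result (n : ℕ) (hn : 1 ≤ n) (p : ℝ)
    (hp : (n = 2 ∧ 2 ≤ p) ∨ Real.exp (32 * (n : ℝ) ^ 2) ≤ p) :
    (∀ f : SchwartzMap ℂ ℂ, AngularType n f →
      eLpNorm (T n f) (ENNReal.ofReal p) (volume : Measure ℂ)
        ≤ ENNReal.ofReal ((n : ℝ) ^ (1 - 2 / p) * (p - 1)) *
          eLpNorm f (ENNReal.ofReal p) (volume : Measure ℂ)) ∧
    (∀ f : SchwartzMap ℂ ℂ, AngularType n f →
      eLpNorm (T n f) (ENNReal.ofReal p) (volume : Measure ℂ)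
        ≤ ENNReal.ofReal (K n p) * eLpNorm f (ENNReal.ofReal p) (volume : Measure ℂ)) ∧
    (∀ c : ℝ, c < K n p →
      ∃ f : SchwartzMap ℂ ℂ, HasCompactSupport f ∧ AngularType n f ∧
        ENNReal.ofReal c * eLpNorm f (ENNReal.ofReal p) (volume : Measure ℂ)
          < eLpNorm (T n f) (ENNReal.ofReal p) (volume : Measure ℂ)) ∧
    K n p ≤ (n : ℝ) ^ (1 - 2 / p) * (p - 1) ∧
    (1 - 2 * ((n : ℝ) - 1) / p) * ((n : ℝ) ^ (1 - 2 / p) * (p - 1)) ≤ K n p := by
  have hp2 : 2 ≤ p := by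
    rcases hp with hp | hp
    · exact hp.2
    · have := (Pool.Agent.U588.RB.big hn hp).1
      have hn1 : (1 : ℝ) ≤ (n : ℝ) ^ 2 := one_le_pow₀ (by exact_mod_cast hn)
      linarith
  have hstar : Pool.Agent.Y282.RB.Star n p := by
    rcases hp with hp | hp
    · rw [hp.1]
      exact Pool.Agent.Y282.RB.Fin.star2 p hp.2
    · exact Pool.Agent.U588.RB.star_big hn hp
  have hT : ∀ n f, T n f = Pool.Agent.Y282.RB.Tn n f := fun n f => rfl
  have hK : K n p = Pool.Agent.Y282.RB.Cn p n := (Pool.Agent.Y282.RB.K3.main n p (by linarith)).symm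
  have hpos : 0 < Pool.Agent.Y282.RB.Cn p n := by
    unfold Pool.Agent.Y282.RB.Cn
    refine Finset.prod_pos (fun j _ => ?_)
    have h1 : (1 : ℝ) / p < 1 := by
      rw [div_lt_one (by linarith)]; linarith
    have h2 : (0 : ℝ) < 1 / p := by positivity
    have h3 : (0 : ℝ) ≤ (j : ℝ) := Nat.cast_nonneg j
    apply div_pos <;> linarith
  have hup : K n p ≤ (n : ℝ) ^ (1 - 2 / p) * (p - 1) := by
    rw [hK]
    exact upper hn hp2
  have hmain : ∀ f : SchwartzMap ℂ ℂ, AngularType n f →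
      eLpNorm (T n f) (ENNReal.ofReal p) (volume : Measure ℂ)
        ≤ ENNReal.ofReal (K n p) * eLpNorm f (ENNReal.ofReal p) (volume : Measure ℂ) := by
    intro f hf
    rw [hT, hK]
    exact Pool.Agent.Y282.RB.K.main n p (Pool.Agent.Y282.RB.Cn p n) hn hp2 hpos.le
      (fun g hg hs => Pool.Agent.Y282.RB.Fin.plane n p hn hp2 hstar g hg hs) f
      (fun a z ha => hf a z ha)
  refine ⟨fun f hf => (hmain f hf).trans ?_, hmain, ?_, hup, ?_⟩
  · exact mul_le_mul_left (ENNReal.ofReal_le_ofReal hup) _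
  · intro c hc
    rw [hK] at hc
    obtain ⟨g, hg, hs, hlt⟩ := Pool.Agent.Y282.RB.Fin.sharp n p (max c 0) hn (by linarith)
      (le_max_right _ _) (max_lt hc hpos)
    obtain ⟨f, hf1, hf2, hf3⟩ := Pool.Agent.Y282.RB.K2.main n g hg hs
    refine ⟨f, hf3, fun a z ha => hf2 a z ha, ?_⟩
    rw [hT, hf1]
    refine lt_of_le_of_lt ?_ hlt
    gcongr
    exact le_max_left _ _
  · rw [hK]
    have h1 := lower hn hp2
    have hp0 : 0 < p := by linarith
    have hn1 : (1 : ℝ) ≤ n := by exact_mod_cast hn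
    have hd : 2 / p ≤ 1 := by
      rw [div_le_one hp0]
      exact hp2
    have h2 : 1 - 2 * ((n : ℝ) - 1) / p ≤ (1 - 2 / p) ^ (n - 1) := by
      have h3 := one_add_mul_le_pow (a := -(2 / p)) (by linarith) (n - 1)
      have h4 : ((n - 1 : ℕ) : ℝ) = (n : ℝ) - 1 := by
        rw [Nat.cast_sub hn, Nat.cast_one]
      rw [h4] at h3
      have h5 : 1 + ((n : ℝ) - 1) * -(2 / p) = 1 - 2 * ((n : ℝ) - 1) / p := by ring
      rw [h5] at h3
      exact h3
    have h3 : (n : ℝ) ^ (1 - 2 / p) ≤ n := by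
      have h4 := Real.rpow_le_rpow_of_exponent_le hn1 (y := 1 - 2 / p) (z := 1) (by
        have : 0 < 2 / p := by positivity
        linarith)
      rwa [Real.rpow_one] at h4
    have h4 : 0 ≤ (1 - 2 / p) ^ (n - 1) := pow_nonneg (by linarith) _
    have h5 : 0 ≤ (n : ℝ) ^ (1 - 2 / p) * (p - 1) := mul_nonneg (by positivity) (by linarith)
    calc (1 - 2 * ((n : ℝ) - 1) / p) * ((n : ℝ) ^ (1 - 2 / p) * (p - 1))
        ≤ (1 - 2 / p) ^ (n - 1) * ((n : ℝ) ^ (1 - 2 / p) * (p - 1)) :=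
          mul_le_mul_of_nonneg_right h2 h5
      _ ≤ (1 - 2 / p) ^ (n - 1) * (n * (p - 1)) := by
          apply mul_le_mul_of_nonneg_left _ h4
          exact mul_le_mul_of_nonneg_right h3 (by linarith)
      _ ≤ Pool.Agent.Y282.RB.Cn p n := h1

end Pool.Agent.Results.MP_3dd6d4_an.AngularTypes
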