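import Pool.Agent.U307.RAD.Main3
import Pool.Agent.U307.RAD.Main4

/-!
# Powers of the Beurling transform: the extremal angular type on annuli

A function `f` has angular type `m` if `f (r e^{iθ}) = e^{i m θ} φ(r)`. The near extremal functions for
`T ^ n` on `L ^ p`, `p > 2`, are of type `2 n` and are spread over annuli `a ≤ |z| ≤ b` with `b / a`
tending to infinity. Here, for all `n ≥ 1` and all real `p ≥ 2`, the inequality of the question is proved
for functions of type `2 n` which are supported in an annulus `a ≤ |z| ≤ b` with `b ≤ 3 a`, or with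
`4 log (b / a) < p - 3`, or more generally with `2 + 4 log (b / a) < (p - 1) ^ (p / (p - 2))`. With
`AllTypesButOne` it follows for all functions of any one type supported in such an annulus.

Proof. By duality the claim is about the restriction to the annulus of the component of type `-2 n` of
`T ^ n h`, which is `(conj z / z) ^ n (g z - ∫_0^1 r u(r) g(r z) dr)`, `g` the radial part of `h`. On `L²` its
norm is at most one. On `L ^ q`, `q → 1`, only the windows `∫ |u(r)| dr / r` over intervals of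
logarithmic length `log (b / a)` matter. The identity `(1 - r²) u(r) = n (P_{n-1} - P_n)(2 r² - 1)` with
Legendre polynomials, `|P_n| ≤ 1` and `∫_0^1 u² r dr = 2 n²` bound them by `n (1 + 4 log (b / a))`. The
theorem of Riesz and Thorin gives the bound.
-/

set_option autoImplicit false

open MeasureTheory

namespace Pool.Agent.Results.MP_3dd6d4_an.ExtremalTypeOnAnnuli

/-- The `n`-th power of the Beurling transform of a Schwartz function: the Fourier multiplier with
symbol `(conj ξ / ξ) ^ n`, in the literal form of the frozen statement. -/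
noncomputable def T (n : ℕ) (f : SchwartzMap ℂ ℂ) (z : ℂ) : ℂ :=
  ∫ ξ : ℂ,
    Complex.exp (2 * (Real.pi : ℂ) * Complex.I * ((z.re * ξ.re + z.im * ξ.im : ℝ) : ℂ)) *
      ((starRingEnd ℂ ξ / ξ) ^ n *
        ∫ w : ℂ, Complex.exp (-(2 * (Real.pi : ℂ) * Complex.I *
          ((w.re * ξ.re + w.im * ξ.im : ℝ) : ℂ))) * f w)

/-- `f` has angular type `m`: `f (r e^{iθ}) = e^{i m θ} φ(r)`. -/
def HasType (m : ℤ) (f : SchwartzMap ℂ ℂ) : Prop := ∀ c z : ℂ, ‖c‖ = 1 → f (c * z) = c ^ m * f z

/-- The inequality `‖T ^ n f‖_p ≤ C ‖f‖_p`. -/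
def Bound (n : ℕ) (p C : ℝ) (f : SchwartzMap ℂ ℂ) : Prop :=
  eLpNorm (T n f) (ENNReal.ofReal p) volume ≤
    ENNReal.ofReal C * eLpNorm (fun z : ℂ => f z) (ENNReal.ofReal p) volume

/-- Let `n ≥ 1`, `p ≥ 2` real, `0 < a ≤ b`, and let `f` vanish outside of the annulus `a ≤ |z| ≤ b`.
(1) If `f` is of type `2 n` and `M > 2 + 4 log (b / a)` then `‖T ^ n f‖_p ≤ (n M) ^ (1 - 2/p) ‖f‖_p`.
(2) If `f` is of any one type `m` and `b ≤ 3 a`, or `4 log (b / a) < p - 3`, or
`2 + 4 log (b / a) < (p - 1) ^ (p / (p - 2))`, then `‖T ^ n f‖_p ≤ n ^ (1 - 2/p) (p - 1) ‖f‖_p`, the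
inequality of the question. -/
theorem result (n : ℕ) (p a b : ℝ) (hn : 1 ≤ n) (hp : 2 ≤ p) (ha : 0 < a) (hab : a ≤ b)
    (f : SchwartzMap ℂ ℂ) (hs : ∀ z, f z ≠ 0 → a ≤ ‖z‖ ∧ ‖z‖ ≤ b) :
    (HasType (2 * n) f → ∀ M : ℝ, 2 + 4 * Real.log (b / a) < M →
      Bound n p ((n * M) ^ (1 - 2 / p)) f) ∧
    (∀ m : ℤ, HasType m f →
      b ≤ 3 * a ∨ 4 * Real.log (b / a) < p - 3 ∨
        2 + 4 * Real.log (b / a) < (p - 1) ^ (p / (p - 2)) →
      Bound n p ((n : ℝ) ^ (1 - 2 / p) * (p - 1)) f) := by
  have hn1 : (1 : ℝ) ≤ n := by exact_mod_cast hn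
  have h1 : HasType (2 * n) f → ∀ M : ℝ, 2 + 4 * Real.log (b / a) < M →
      Bound n p ((n * M) ^ (1 - 2 / p)) f := by
    intro hf M hM
    refine Pool.Agent.U307.RAD.ann4 n p a b M hn hp ha hab hM f (fun c z hc => ?_) hs
    rw [hf c z hc]
    norm_cast
  refine ⟨h1, fun m hf hcase => ?_⟩
  by_cases hm : m = 2 * n
  · subst hm
    have hL0 : 0 ≤ Real.log (b / a) := Real.log_nonneg ((one_le_div ha).2 hab)
    have hL3 : b ≤ 3 * a → 2 + 4 * Real.log (b / a) < 13 / 2 := by
      intro h
      have h2 : Real.log (b / a) ≤ Real.log 3 := by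
        refine Real.log_le_log (div_pos (by linarith) ha) ?_
        rw [div_le_iff₀ ha]
        exact h
      have h3 : Real.log 3 < 9 / 8 := by
        rw [Real.log_lt_iff_lt_exp (by norm_num)]
        have h4 := Real.sum_le_exp_of_nonneg (x := (9 / 8 : ℝ)) (by norm_num) 6
        refine lt_of_lt_of_le ?_ h4
        norm_num [Finset.sum_range_succ, Nat.factorial]
      linarith
    rcases hp.eq_or_lt with h2 | hp2
    · have key := h1 hf (3 + 4 * Real.log (b / a)) (by linarith)
      rw [← h2] at key ⊢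
      norm_num at key ⊢
      exact key
    · have h4 := Pool.Agent.U307.RAD.pow4' p hp2
      have hlt : 2 + 4 * Real.log (b / a) < (p - 1) ^ (p / (p - 2)) := by
        rcases hcase with h | h | h
        · linarith [hL3 h, h4.1]
        · linarith [h4.2]
        · exact h
      have key := h1 hf _ hlt
      rw [Real.mul_rpow (by positivity) (by linarith), Pool.Agent.U307.RAD.pow4 p hp2] at key
      exact key
  · refine (Pool.Agent.U307.RAD.all3 n m p hn hp hm f hf).trans ?_
    have := (Pool.Agent.U307.RAD.num2 n p hn hp).1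
    gcongr

end Pool.Agent.Results.MP_3dd6d4_an.ExtremalTypeOnAnnuli
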